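import Pool.Agent.Work.MP_b0c12c_nt_helper41.Num

/-!
# Cramér's constant in models which sieve by the true primes up to `n ^ θ`
-/

set_option autoImplicit false
set_option linter.unusedSectionVars false

namespace Pool.Agent.Work.MP_b0c12c_nt_old.SemiRandomConstant

open MeasureTheory ProbabilityTheory
open Pool.Agent.Work.MP_b0c12c_nt_helper63 (RandomClasses)
open Pool.Agent.Work.MP_b0c12c_nt_helper41

/-- Let `a p` (`p` prime) be independent uniform random residue classes and let `S` be the set of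
the integers `n ≥ 2` without prime factors `p ≤ n ^ θ` which avoid the class `a p` modulo every
prime `p` with `n ^ θ < p ≤ n ^ η`. Then almost surely the largest gap of `S` up to `x` is at least
`(gapBound θ η - o(1)) (log x)²`. For `η = exp (-γ)` the constant is at least `101/100` if
`θ ≤ 1/11`, and for every `η` it tends to `2 η` as `θ → 0`. -/
theorem result {Ω : Type*} [MeasurableSpace Ω] {μ : Measure Ω} [IsProbabilityMeasure μ]
    {a : ℕ → Ω → ℕ} (ha : RandomClasses μ a) :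
    (∀ θ η : ℝ, 0 < θ → θ < 1 / 2 → θ < η → ∀ᵐ ω ∂μ,
      (Semi θ η (fun p => a p ω)).Infinite ∧
      (∀ c < gapBound θ η, GapsEverywhere (Semi θ η (fun p => a p ω)) c) ∧
      ((gapBound θ η : ℝ) : EReal) ≤ cramerLimsup (Semi θ η (fun p => a p ω))) ∧
    (∀ θ : ℝ, 0 < θ → θ ≤ 1 / 11 → ∀ᵐ ω ∂μ,
      GapsEverywhere (Semi θ (Real.exp (-Real.eulerMascheroniConstant)) (fun p => a p ω))
        (101 / 100) ∧
      (((101 / 100 : ℝ)) : EReal) ≤
        cramerLimsup (Semi θ (Real.exp (-Real.eulerMascheroniConstant)) (fun p => a p ω))) ∧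
    (∀ η ε : ℝ, 0 < η → 0 < ε → ∃ θ₀ > 0, ∀ θ : ℝ, 0 < θ → θ < θ₀ → ∀ᵐ ω ∂μ,
      GapsEverywhere (Semi θ η (fun p => a p ω)) (2 * η - ε) ∧
      (((2 * η - ε : ℝ)) : EReal) ≤ cramerLimsup (Semi θ η (fun p => a p ω))) := by
  refine ⟨?_, ?_, ?_⟩
  · intro θ η h0 h1 h2
    obtain ⟨g1, g2, g3⟩ := bd_opt (η := η) h0 h1
    rw [← g3]
    exact ae_main ha h0 (by linarith) h2 g1 g2
  · intro θ h0 h1
    have hη : θ < Real.exp (-Real.eulerMascheroniConstant) := by
      have := eg_gt
      unfold eg at this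
      linarith
    have h3 : 101 / 100 < bd (8 / 5) θ (Real.exp (-Real.eulerMascheroniConstant)) :=
      bd_eleventh h0 h1
    filter_upwards [ae_main ha h0 (by linarith) hη (by norm_num : (0:ℝ) < 8 / 5)
      (tau_neg h0 (by linarith))] with ω hω
    refine ⟨hω.2.1 _ h3, le_trans ?_ hω.2.2⟩
    rw [EReal.coe_le_coe_iff]
    exact h3.le
  · intro η ε hη hε
    obtain ⟨θ₀, h0, h1, h2, h3⟩ := bd_limit hη hε
    refine ⟨θ₀, h0, fun θ hθ hθ' => ?_⟩
    obtain ⟨h4, h5⟩ := h3 θ hθ hθ'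
    have h6 : θ < η := by linarith
    filter_upwards [ae_main ha hθ (by linarith) h6 one_pos h4] with ω hω
    refine ⟨hω.2.1 _ h5, le_trans ?_ hω.2.2⟩
    rw [EReal.coe_le_coe_iff]
    exact h5.le

end Pool.Agent.Work.MP_b0c12c_nt_old.SemiRandomConstant
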