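import Pool.Agent.Work.MP_b0c12c_nt_helper63.Main

/-!
Large gaps in a semi-random sieve of Eratosthenes: only (some of) the sieving primes in
`(n ^ θ, √n]` use random residue classes, all other sieving primes remove the class `0`.
-/

namespace Pool.Agent.Results.MP_b0c12c_nt.SemiRandomSieve

open MeasureTheory ProbabilityTheory Filter Topology
open Pool.Agent.Work.MP_b0c12c_nt_helper63

theorem result {Ω : Type*} [MeasurableSpace Ω] (μ : Measure Ω) [IsProbabilityMeasure μ]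
    (a : ℕ → Ω → ℕ) (ha : RandomClasses μ a)
    (θ : ℝ) (hθ0 : 0 < θ) (hθ1 : θ < 1 / 2)
    (A : ℕ → Set ℕ) (hA : ∀ n, ∀ p ∈ A n, (n : ℝ) ^ θ < p)
    (w : ℕ → ℝ) (hw1 : ∀ n, 1 ≤ w n) (hwm : Monotone w)
    (hw : Tendsto (fun n : ℕ => w n / Real.log n) atTop (𝓝 0))
    (hfreq : ∃ᶠ x : ℕ in atTop, Real.exp (-w x) ≤ activeSum θ A x) :
    ∀ᵐ ω ∂μ, (Sifted A (fun p => a p ω)).Infinite ∧
      ((θ ^ 2 / 4000 : ℝ) : EReal) ≤ gapLimsup w (Sifted A (fun p => a p ω)) :=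
  semirandom θ hθ0 hθ1 A hA w hw1 hwm hw hfreq ha

end Pool.Agent.Results.MP_b0c12c_nt.SemiRandomSieve
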