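import Pool.Agent.Work.MP_b0c12c_nt.Strong
import Pool.Agent.Work.MP_b0c12c_nt_helper63.Fin2

/-!
Large gaps in random subsets of the primes: the constant `2 e^{-γ}`.
-/

namespace Pool.Agent.Results.MP_b0c12c_nt.ThinnedPrimes

open MeasureTheory ProbabilityTheory Filter
open Pool.Agent.Work.MP_b0c12c_nt Pool.Agent.Work.MP_b0c12c_nt_helper63
open scoped ENNReal

/-- Keep every prime independently with probability `θ`, `0 < θ < 1`. Then almost surely the
resulting set of primes has `L ≥ 2 e^{-γ} / log (1 / (1 - θ))`. -/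
theorem result (θ : ℝ) (hθ0 : 0 < θ) (hθ1 : θ < 1)
    (Ω : Type) [MeasurableSpace Ω] (μ : Measure Ω) [IsProbabilityMeasure μ]
    (E : ℕ → Set Ω) (hm : ∀ p, MeasurableSet (E p)) (hi : iIndepSet E μ)
    (hp : ∀ p : ℕ, p.Prime → μ (E p) = ENNReal.ofReal θ) :
    ∀ᵐ ω ∂μ, ((2 * Real.exp (-Real.eulerMascheroniConstant) / Real.log (1 / (1 - θ)) : ℝ) : EReal)
      ≤ cramerL {p : ℕ | p.Prime ∧ ω ∈ E p} :=
  thinned_core strong_pnt θ hθ0 hθ1 μ E hm hi hp

end Pool.Agent.Results.MP_b0c12c_nt.ThinnedPrimes
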